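import Pool.Agent.H53.UK.Targets

/-!
MP_c62aed_lc, uniformly random `k`-CNFs, row TOU of the board uk_modules: falsified means violated;
few candidates cover few assignments.
-/

set_option autoImplicit false

namespace Pool.Agent.H69.UK

open Finset
open Pool.Agent.H53.UK
open Pool.Agent.H53.MC (Clause Falsified)

/-- at most `2 ^ (n - k)` assignments are prescribed on `k` variables -/
theorem cap_set {n k : ℕ} (A : Finset (Fin n)) (hA : A.card = k) (s : Fin n → Bool) :
    (univ.filter fun x : Fin n → Bool => ∀ i ∈ A, x i ≠ s i).card ≤ 2 ^ (n - k) := by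
  classical
  have hc : Fintype.card ({j : Fin n // j ∉ A} → Bool) = 2 ^ (n - k) := by
    rw [Fintype.card_fun, Fintype.card_bool, Fintype.card_subtype_compl, Fintype.card_fin]
    simp [hA]
  rw [← hc, ← card_univ]
  apply card_le_card_of_injOn (fun (x : Fin n → Bool) (j : {j : Fin n // j ∉ A}) => x j.1)
    (fun _ _ => mem_coe.2 (mem_univ _))
  intro x hx y hy hxy
  have hx' := (mem_filter.1 (mem_coe.1 hx)).2
  have hy' := (mem_filter.1 (mem_coe.1 hy)).2
  funext j
  by_cases hj : j ∈ A
  · have h1 := hx' j hj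
    have h2 := hy' j hj
    revert h1 h2
    cases x j <;> cases y j <;> cases s j <;> simp
  · exact congrFun hxy ⟨j, hj⟩

theorem pf_TOU : T_TOU := by
  classical
  refine ⟨?_, ?_⟩
  · intro n k c x
    unfold Falsified toCl VC
    simp
  · intro n k ι H q T B hT hcov
    have h1 : B ⊆ T.biUnion fun c => univ.filter fun x : Fin n → Bool =>
        ∀ i ∈ (H c).1.1, x i ≠ (H c).2 i := by
      intro x hx
      obtain ⟨c, hc, hv⟩ := hcov x hx
      exact mem_biUnion.2 ⟨c, hc, mem_filter.2 ⟨mem_univ _, hv⟩⟩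
    calc B.card ≤ _ := card_le_card h1
      _ ≤ ∑ c ∈ T, (univ.filter fun x : Fin n → Bool => ∀ i ∈ (H c).1.1, x i ≠ (H c).2 i).card :=
          card_biUnion_le
      _ ≤ ∑ c ∈ T, 2 ^ (n - k) := sum_le_sum fun c _ => cap_set (H c).1.1 (H c).1.2 (H c).2
      _ = T.card * 2 ^ (n - k) := by rw [sum_const, smul_eq_mul]
      _ ≤ q * 2 ^ (n - k) := Nat.mul_le_mul_right _ hT

end Pool.Agent.H69.UK
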